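import Pool.Agent.Lib.MP_c5838f_co.SP.Iface

/-!
# PAR: the choice of the parameters
-/

set_option autoImplicit false

namespace Pool.Agent.Lib.MP_c5838f_co.SP.H27

theorem par : ParStatement := by
  intro θ v b g hθ0 hθ1 hb hg hbg hgv hbv
  have hbR : (0 : ℝ) < b := by exact_mod_cast hb
  have hgR : (0 : ℝ) < g := by exact_mod_cast hg
  have hvR : (g : ℝ) ≤ v := by exact_mod_cast hgv
  have hv0 : (0 : ℝ) < v := by linarith
  set M : ℕ := v / (2 * b) with hM
  have hM1 : 1 ≤ M := by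
    rw [hM, Nat.one_le_div_iff (by omega)]
    exact hbv
  have hMR : (1 : ℝ) ≤ M := by exact_mod_cast hM1
  -- 4 b M ≥ v
  have hM4 : (v : ℝ) ≤ 4 * b * M := by
    have h1 : v < (M + 1) * (2 * b) := by
      have := Nat.lt_div_mul_add (a := v) (b := 2 * b) (by omega)
      rw [← hM] at this
      linarith
    have h2 : (v : ℝ) < (M + 1) * (2 * b) := by exact_mod_cast h1
    nlinarith
  set s : ℕ := ⌈12 * θ * M⌉₊ with hs
  have hs1 : 12 * θ * M ≤ s := Nat.le_ceil _
  have hs2 : (s : ℝ) < 12 * θ * M + 1 := Nat.ceil_lt_add_one (by positivity)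
  -- v / (g θ) ≤ (2/3) * 12 θ M
  have hkey : 3 * (v / (g * θ)) ≤ 2 * (12 * θ * M) := by
    have h1 : v / (g * θ) ≤ 8 * θ * M := by
      rw [div_le_iff₀ (by positivity)]
      calc (v : ℝ) ≤ 4 * b * M := hM4
        _ ≤ 4 * (2 * θ ^ 2 * g) * M := by gcongr
        _ = 8 * θ * M * (g * θ) := by ring
    linarith
  have hvg : 1 ≤ (v : ℝ) / (g * θ) := by
    rw [le_div_iff₀ (by positivity)]
    nlinarith
  refine ⟨M, s, ?_, ?_, ?_⟩
  · have := Nat.div_mul_le_self v (2 * b)
    rw [← hM] at this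
    calc 2 * M * b = M * (2 * b) := by ring
      _ ≤ v := this
  · -- C(M,s)(2θ)^s ≤ (1/2)^s
    have h1 : ((M.choose s : ℝ)) * (2 * θ) ^ s ≤ (1 / 2) ^ s := by
      have h2 : (M.choose s : ℝ) ≤ (M : ℝ) ^ s / (s.factorial : ℝ) := Nat.choose_le_pow_div s M
      have h3 : (s : ℝ) ^ s / (s.factorial : ℝ) ≤ Real.exp s :=
        Real.pow_div_factorial_le_exp s (by positivity) s
      have hf : (0 : ℝ) < s.factorial := by exact_mod_cast Nat.factorial_pos s
      have h4 : (2 * θ * M) ≤ s / 6 := by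
        rw [le_div_iff₀ (by norm_num)]
        linarith
      calc ((M.choose s : ℝ)) * (2 * θ) ^ s
          ≤ (M : ℝ) ^ s / (s.factorial : ℝ) * (2 * θ) ^ s := by gcongr
        _ = (2 * θ * M) ^ s / (s.factorial : ℝ) := by
            rw [mul_pow (2 * θ) (M : ℝ)]; ring
        _ ≤ (s / 6) ^ s / (s.factorial : ℝ) := by gcongr
        _ = (s : ℝ) ^ s / (s.factorial : ℝ) * (1 / 6) ^ s := by
            rw [div_eq_mul_one_div (s : ℝ) 6, mul_pow]; ring
        _ ≤ Real.exp s * (1 / 6) ^ s := by gcongr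
        _ = (Real.exp 1 * (1 / 6)) ^ s := by
            rw [mul_pow, ← Real.exp_nat_mul, mul_one]
        _ ≤ (1 / 2) ^ s := by
            gcongr
            have := Real.exp_one_lt_three
            linarith
    have h5 : θ⁻¹ ^ ((v : ℝ) / (g : ℝ)) = Real.exp ((v / g) * Real.log θ⁻¹) := by
      rw [Real.rpow_def_of_pos (by positivity)]
      congr 1
      ring
    have h6 : ((1 : ℝ) / 2) ^ s = Real.exp (-(s * Real.log 2)) := by
      rw [← Real.rpow_natCast, Real.rpow_def_of_pos (by norm_num)]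
      congr 1
      rw [one_div, Real.log_inv]
      ring
    calc (M.choose s : ℝ) * (2 * θ) ^ s * θ⁻¹ ^ ((v : ℝ) / (g : ℝ))
        ≤ (1 / 2) ^ s * θ⁻¹ ^ ((v : ℝ) / (g : ℝ)) := by gcongr
      _ = Real.exp (-(s * Real.log 2) + (v / g) * Real.log θ⁻¹) := by
          rw [h5, h6, ← Real.exp_add]
      _ ≤ Real.exp (-Real.log 2) := by
          apply Real.exp_le_exp.2
          have h7 : Real.log θ⁻¹ ≤ θ⁻¹ - 1 := Real.log_le_sub_one_of_pos (by positivity)
          have h8 : (v : ℝ) / g * Real.log θ⁻¹ ≤ v / g * (θ⁻¹ - 1) := by gcongr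
          have h9 : (v : ℝ) / g * θ⁻¹ = v / (g * θ) := by field_simp
          have h10 : (1 : ℝ) ≤ v / g := by rwa [le_div_iff₀ hgR, one_mul]
          have h11 := Real.log_two_gt_d9
          have h12 := Real.log_two_lt_d9
          have h13 : (v : ℝ) / (g * θ) ≤ s * Real.log 2 := by
            have h14 : 3 / 2 * (v / (g * θ)) ≤ (s : ℝ) := by linarith
            nlinarith
          rw [mul_sub, h9, mul_one] at h8
          linarith
      _ = 1 / 2 := by
          rw [Real.exp_neg, Real.exp_log (by norm_num)]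
          norm_num
  · intro m hm
    have h1 : (M : ℝ) ≤ 2 * s * m := by exact_mod_cast hm
    have h2 : (s : ℝ) ≤ 24 * θ * M := by linarith
    have h3 : (M : ℝ) ≤ M * (48 * θ * m) := by
      calc (M : ℝ) ≤ 2 * s * m := h1
        _ ≤ 2 * (24 * θ * M) * m := by gcongr
        _ = M * (48 * θ * m) := by ring
    nlinarith

end Pool.Agent.Lib.MP_c5838f_co.SP.H27
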